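import Pool.Agent.Helper44.FL2.Pres
import Pool.Agent.Helper45.FL2.Loc1

/-!
# Locality statements for `P × E[m]`
-/

open CategoryTheory MonoidalCategory Opposite

set_option autoImplicit false

namespace Pool.Agent.Helper44.FL2

open FL

variable {C : Type} [SmallCategory C] {X : SP (Wr C)}

/-- Elements of the faces of `P × E[N]`. -/
lemma mem_fface (P : SP (Wr C)) {N : SimplexCategory} (U : Finset (Fin (N.len + 1)))
    (hU : U.Nonempty) (θ : (Wr C)ᵒᵖ) (k : SimplexCategoryᵒᵖ)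
    (z : ((E0o P N).obj θ).obj k) :
    z ∈ (fface ((E0 C).obj P) U).mem θ k ↔ ∀ i, z.2 i ∈ U := by
  constructor
  · rintro ⟨m, α, y, h, rfl⟩
    exact fun i => h _
  · intro h
    have hc : U.card = (U.card - 1) + 1 :=
      (Nat.succ_pred_eq_of_pos (Finset.card_pos.mpr hU)).symm
    have hr : ∀ i, ∃ t, U.orderEmbOfFin hc t = z.2 i := by
      intro i
      have h1 : z.2 i ∈ Set.range (U.orderEmbOfFin hc) := by
        rw [Finset.range_orderEmbOfFin]
        exact h i
      exact h1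
    choose w hw using hr
    refine ⟨SimplexCategory.mk (U.card - 1), SimplexCategory.Hom.mk
      (U.orderEmbOfFin hc).toOrderHom, (z.1, w), ?_, ?_⟩
    · intro i
      exact Finset.orderEmbOfFin_mem U hc i
    · exact Prod.ext rfl (funext fun i => hw i)

theorem ext_of_pres (hT : Transfer X) (hA : ArrowIso X)
    {r : ℕ} {B : Fin r → SP C} {N : SSet.{0}}
    {s : N ⟶ SSet.stdSimplex.obj (SimplexCategory.mk r)} {P : SP (Wr C)} (ρ : Ph B s ⟶ P)
    (hρ : ∀ θ k, Function.Bijective ((ρ.app θ).app k)) : Ext X ((E0 C).obj P) := by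
  intro m S S' v hv
  have hvS : v ∈ S ∩ S' := by rw [hv]; exact Finset.mem_singleton_self v
  rw [Finset.mem_inter] at hvS
  let U : Set (Fin (m.len + 1)) := { t | t ∈ S }
  let U' : Set (Fin (m.len + 1)) := { t | t ∈ S' }
  have hUU' : U ∩ U' = {v} := by
    ext t
    constructor
    · rintro ⟨h, h'⟩
      have : t ∈ S ∩ S' := Finset.mem_inter.mpr ⟨h, h'⟩
      rw [hv] at this
      exact Finset.mem_singleton.mp this
    · intro h
      rw [Set.mem_singleton_iff] at h
      rw [h]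
      exact hvS
  obtain ⟨hle, hia⟩ := EN_IA U U' v hUU'
  refine locT_of_inner hT hA ρ hρ m
    (N ◁ SSet.Subcomplex.homOfLE hle) (hia.whiskerLeft N)
    (CartesianMonoidalCategory.fst N _)
    (CartesianMonoidalCategory.snd N _ ≫ (ENsub (U ∪ U')).ι) ?_ ?_ _ _ ?_ ?_
  · intro l y y' h
    obtain ⟨a, b⟩ := y
    obtain ⟨a', b'⟩ := y'
    have h1 : a = a' := congrArg Prod.fst h
    have h2 : b.1 = b'.1 := congrArg (fun t => (Prod.snd t).1) h
    exact Prod.ext h1 (Subtype.ext h2)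
  · intro l y y' h h'
    obtain ⟨a, b⟩ := y
    obtain ⟨a', b'⟩ := y'
    exact Prod.ext h (Subtype.ext h')
  · intro θ k u w
    refine Iff.trans (or_congr (mem_fface P S ⟨v, hvS.1⟩ θ k _)
      (mem_fface P S' ⟨v, hvS.2⟩ θ k _)) ?_
    constructor
    · intro h
      refine ⟨(u.x, ⟨w, ?_⟩), rfl, rfl⟩
      rcases h with h | h
      · exact Or.inl h
      · exact Or.inr h
    · rintro ⟨⟨a, b⟩, h1, h2⟩
      have h3 : b.1 = w := h2
      subst h3
      rcases b.2 with h | h
      · exact Or.inl h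
      · exact Or.inr h
  · intro θ k u w
    refine Iff.trans (mem_fface P (S ∪ S') ⟨v, Finset.mem_union_left _ hvS.1⟩ θ k _) ?_
    constructor
    · intro h
      exact ⟨(u.x, ⟨w, fun i => Finset.mem_union.mp (h i)⟩), rfl, rfl⟩
    · rintro ⟨⟨a, b⟩, h1, h2⟩
      have h3 : b.1 = w := h2
      subst h3
      exact fun i => Finset.mem_union.mpr (b.2 i)

lemma vert_iff (c : C) (θ : (Wr C)ᵒᵖ) (k : SimplexCategoryᵒᵖ)
    (u : PhS (fun _ : Fin 1 => rep c)
      (𝟙 (SSet.stdSimplex.obj (SimplexCategory.mk 1) : SSet.{0})) θ.unop k) :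
    ((rhoRep (seg c)).app θ).app k u ∈ (vert (seg c)).mem θ k ↔
      u.x ∈ (SSet.boundary.{0} 1).obj (op (SimplexCategory.mk θ.unop.len)) := by
  constructor
  · rintro ⟨v, hv⟩
    intro hs
    have h0 := hs 0
    have h1 := hs 1
    obtain ⟨a, ha⟩ := h0
    obtain ⟨b, hb⟩ := h1
    have ha' : v = 0 := (hv a).symm.trans ha
    have hb' : v = 1 := (hv b).symm.trans hb
    exact absurd (ha'.symm.trans hb') (show ¬ ((0 : Fin 2) = 1) by decide)
  · intro h
    by_contra hc
    refine h ?_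
    have h2 : ∃ a b, sh (𝟙 _) u.x a ≠ sh (𝟙 _) u.x b := by
      by_contra hn
      refine hc ⟨sh (𝟙 _) u.x 0, fun t => ?_⟩
      by_contra hq
      exact hn ⟨t, 0, hq⟩
    obtain ⟨a, b, hab⟩ := h2
    intro v
    by_contra hv
    have h3 : ∀ t, sh (𝟙 _) u.x t ≠ v := fun t ht => hv ⟨t, ht⟩
    have h4 := h3 a
    have h5 := h3 b
    have aux : ∀ p q v : Fin 2, p ≠ q → p ≠ v → q ≠ v → False := by decide
    exact aux _ _ _ hab h4 h5

theorem ext_T0' (hT : Transfer X) (hA : ArrowIso X) (θ : Wr C) : Ext X ((T0 C).obj θ) :=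
  ext_of_pres hT hA (rhoRep θ) (rhoRep_bij θ)

theorem ext_vert' (hT : Transfer X) (hA : ArrowIso X) (c : C) :
    Ext X ((E0 C).obj (vert (seg c)).toSP) :=
  ext_of_pres hT hA (rhoSub (rhoRep (seg c)) (SSet.boundary.{0} 1) (vert (seg c)) (vert_iff c))
    (rhoSub_bij (rhoRep (seg c)) (rhoRep_bij (seg c)) (SSet.boundary.{0} 1) (vert (seg c))
      (vert_iff c))

theorem ext_iso' (hT : Transfer X) (hA : ArrowIso X) : Ext X ((E0 C).obj (disc (isoPsh C))) :=
  ext_of_pres hT hA (rhoIso C) rhoIso_bij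

/-- The two vertices of `E`. -/
def vE : (EN Bool).Subcomplex := ENsub {false} ⊔ ENsub {true}

lemma vE_iff (θ : (Wr C)ᵒᵖ) (k : SimplexCategoryᵒᵖ)
    (u : PhS (fun i : Fin 0 => (i.elim0 : SP C)) (toΔ (EN Bool)) θ.unop k) :
    ((rhoIso C).app θ).app k u ∈ (vertE C).mem θ k ↔ u.x ∈ vE.obj _ := by
  constructor
  · rintro ⟨v, hv⟩
    cases v
    · exact Or.inl hv
    · exact Or.inr hv
  · rintro (h | h)
    · exact ⟨false, h⟩
    · exact ⟨true, h⟩

theorem ext_vertE' (hT : Transfer X) (hA : ArrowIso X) : Ext X ((E0 C).obj (vertE C).toSP) :=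
  ext_of_pres hT hA (rhoSub (rhoIso C) vE (vertE C) vE_iff)
    (rhoSub_bij (rhoIso C) rhoIso_bij vE (vertE C) vE_iff)

theorem E0rel_seg' (hT : Transfer X) (hA : ArrowIso X) (c : C) (m : SimplexCategory)
    (v : Fin (m.len + 1)) : LocT X (E0rel (vert (seg c)) m v) ⊤ := by
  refine locT_of_inner hT hA (rhoRep (seg c)) (rhoRep_bij (seg c)) m
    (SSet.Subcomplex.unionProd (SSet.boundary.{0} 1) (ENsub {v})).ι
    (Pool.Agent.Helper43.FL2.EN_inner_prod v)
    (CartesianMonoidalCategory.fst _ _) (CartesianMonoidalCategory.snd _ _) ?_ ?_ _ _ ?_ ?_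
  · intro l y y' h
    exact Subtype.ext h
  · intro l y y' h h'
    obtain ⟨a, b⟩ := y
    obtain ⟨a', b'⟩ := y'
    exact Prod.ext h h'
  · intro θ k u w
    constructor
    · rintro (h | h)
      · exact ⟨⟨(u.x, w), Or.inr ⟨(vert_iff c θ k u).1 h, trivial⟩⟩, rfl, rfl⟩
      · exact ⟨⟨(u.x, w), Or.inl ⟨trivial, h⟩⟩, rfl, rfl⟩
    · rintro ⟨⟨⟨a, b⟩, h⟩, h1, h2⟩
      have h1' : a = u.x := h1
      have h2' : b = w := h2
      subst h2'
      rcases h with ⟨_, h⟩ | ⟨h, _⟩
      · exact Or.inr h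
      · refine Or.inl ((vert_iff c θ k u).2 ?_)
        rw [← h1']
        exact h
  · intro θ k u w
    exact ⟨fun _ => ⟨(u.x, w), rfl, rfl⟩, fun _ => trivial⟩

/-- Functoriality of `E[S]`. -/
def ENmap {S T : Type} (f : S → T) : EN S ⟶ EN T where
  app k := ↾ fun w i => f (w i)
  naturality _ _ _ := rfl

theorem E0rel_iso' (hT : Transfer X) (hA : ArrowIso X) (m : SimplexCategory)
    (v : Fin (m.len + 1)) : LocT X (E0rel (vertE C) m v) ⊤ := by
  refine locT_of_inner hT hA (rhoIso C) rhoIso_bij m (isoK v).ι (isoK_inner v)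
    (ENmap Prod.fst) (ENmap Prod.snd) ?_ ?_ _ _ ?_ ?_
  · intro l y y' h
    exact Subtype.ext h
  · intro l y y' h h'
    exact funext fun i => Prod.ext (congrFun h i) (congrFun h' i)
  · intro θ k u w
    constructor
    · rintro (⟨b, h⟩ | h)
      · refine ⟨⟨fun i => (u.x i, w i), ?_⟩, rfl, rfl⟩
        cases b
        · exact Or.inl (Or.inl h)
        · exact Or.inr h
      · exact ⟨⟨fun i => (u.x i, w i), Or.inl (Or.inr h)⟩, rfl, rfl⟩
    · rintro ⟨⟨y, h⟩, h1, h2⟩
      rcases h with (h | h) | h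
      · refine Or.inl ⟨false, fun t => ?_⟩
        exact (congrFun h1 t).symm.trans (h t)
      · refine Or.inr fun t => ?_
        exact (congrFun h2 t).symm.trans (h t)
      · refine Or.inl ⟨true, fun t => ?_⟩
        exact (congrFun h1 t).symm.trans (h t)
  · intro θ k u w
    exact ⟨fun _ => ⟨fun i => (u.x i, w i), rfl, rfl⟩, fun _ => trivial⟩

theorem E0bin_loc' (hT : Transfer X) (hA : ArrowIso X) {r : ℕ} (c : Fin (r + 1) → C)
    (m : SimplexCategory) : LocT X (E0bin c m) ⊤ := by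
  refine locT_of_inner hT hA (rhoRep (⟨r + 1, c⟩ : Wr C)) (rhoRep_bij _) m
    ((SSet.stdSimplex.face.{0} (n := r + 1) (Finset.univ.erase (Fin.last (r + 1))) ⊔
        SSet.stdSimplex.face {(Fin.last r).castSucc, Fin.last (r + 1)}).ι ▷
          EN (Fin (m.len + 1)))
    ((Pool.Agent.Helper43.FL2.bin_inner r).whiskerRight _)
    (CartesianMonoidalCategory.fst _ _) (CartesianMonoidalCategory.snd _ _) ?_ ?_ _ _ ?_ ?_
  · intro l y y' h
    obtain ⟨a, b⟩ := y
    obtain ⟨a', b'⟩ := y'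
    have h1 : a.1 = a'.1 := congrArg Prod.fst h
    have h2 : b = b' := congrArg Prod.snd h
    exact Prod.ext (Subtype.ext h1) h2
  · intro l y y' h h'
    obtain ⟨a, b⟩ := y
    obtain ⟨a', b'⟩ := y'
    exact Prod.ext h h'
  · intro θ k u w
    have key : u.x ∈ (SSet.stdSimplex.face.{0} (n := r + 1)
        (Finset.univ.erase (Fin.last (r + 1))) ⊔
        SSet.stdSimplex.face {(Fin.last r).castSucc, Fin.last (r + 1)}).obj
          (op (SimplexCategory.mk θ.unop.len)) ↔
        (∀ t, (sh (𝟙 _) u.x t).1 ≤ r) ∨ ∀ t, r ≤ (sh (𝟙 _) u.x t).1 := by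
      refine or_congr ((SSet.stdSimplex.mem_face_iff _ u.x).trans ?_)
        ((SSet.stdSimplex.mem_face_iff _ u.x).trans ?_)
      · refine forall_congr' fun t => ?_
        refine Finset.mem_erase.trans ?_
        constructor
        · rintro ⟨h, _⟩
          have h2 : (sh (𝟙 _) u.x t).1 < r + 1 + 1 := (sh (𝟙 _) u.x t).2
          have h3 : (sh (𝟙 _) u.x t).1 ≠ r + 1 := fun e => h (Fin.ext e)
          omega
        · intro h
          refine ⟨fun e => ?_, Finset.mem_univ _⟩
          have e' : (sh (𝟙 _) u.x t).1 = r + 1 := congrArg Fin.val e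
          omega
      · refine forall_congr' fun t => ?_
        refine Finset.mem_insert.trans ?_
        constructor
        · rintro (h | h)
          · have e' : (sh (𝟙 _) u.x t).1 = r := congrArg Fin.val h
            omega
          · have e' : (sh (𝟙 _) u.x t).1 = r + 1 := congrArg Fin.val (Finset.mem_singleton.mp h)
            omega
        · intro h
          have h2 : (sh (𝟙 _) u.x t).1 < r + 1 + 1 := (sh (𝟙 _) u.x t).2
          by_cases h3 : (sh (𝟙 _) u.x t).1 = r
          · exact Or.inl (Fin.ext h3)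
          · refine Or.inr (Finset.mem_singleton.mpr (Fin.ext ?_))
            show (sh (𝟙 _) u.x t).1 = r + 1
            omega
    constructor
    · intro h
      exact ⟨(⟨u.x, key.2 h⟩, w), rfl, rfl⟩
    · rintro ⟨⟨a, b⟩, h1, h2⟩
      have h1' : a.1 = u.x := h1
      refine key.1 ?_
      rw [← h1']
      exact a.2
  · intro θ k u w
    exact ⟨fun _ => ⟨(u.x, w), rfl, rfl⟩, fun _ => trivial⟩

lemma arrowIso (X : SP (Wr C)) : ArrowIso X :=
  fun e e' h hf => Pool.Agent.Helper45.LOC.loc_of_arrow_iso e e' h hf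

/-! The statements of section H5, from the transfer principle (`Ph_transfer` of section H4). -/

theorem ext_T0_of (hT : Transfer X) (θ : Wr C) : Ext X ((T0 C).obj θ) :=
  ext_T0' hT (arrowIso X) θ

theorem ext_vert_of (hT : Transfer X) (c : C) : Ext X ((E0 C).obj (vert (seg c)).toSP) :=
  ext_vert' hT (arrowIso X) c

theorem ext_iso_of (hT : Transfer X) : Ext X ((E0 C).obj (disc (isoPsh C))) :=
  ext_iso' hT (arrowIso X)

theorem ext_vertE_of (hT : Transfer X) : Ext X ((E0 C).obj (vertE C).toSP) :=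
  ext_vertE' hT (arrowIso X)

theorem E0rel_seg_of (hT : Transfer X) (c : C) (m : SimplexCategory)
    (v : Fin (m.len + 1)) : LocT X (E0rel (vert (seg c)) m v) ⊤ :=
  E0rel_seg' hT (arrowIso X) c m v

theorem E0rel_iso_of (hT : Transfer X) (m : SimplexCategory)
    (v : Fin (m.len + 1)) : LocT X (E0rel (vertE C) m v) ⊤ :=
  E0rel_iso' hT (arrowIso X) m v

theorem E0bin_loc_of (hT : Transfer X) {r : ℕ} (c : Fin (r + 1) → C)
    (m : SimplexCategory) : LocT X (E0bin c m) ⊤ :=
  E0bin_loc' hT (arrowIso X) c m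

end Pool.Agent.Helper44.FL2
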