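import Pool.Agent.Helper58.FL2.Comb
import Pool.Agent.Helper64.FL2.PairE
import Pool.Agent.Helper43.FL2.BinInner

/-!
# Inner anodyne inclusions of subcomplexes of nerves of chaotic categories
-/

open CategoryTheory MonoidalCategory Opposite

set_option autoImplicit false

namespace Pool.Agent.Helper44.FL2

open FL

lemma isIso_of_bij' {K L : SSet.{0}} (f : K ⟶ L)
    (h : ∀ k, Function.Bijective (f.app k)) : IsIso f := by
  rw [NatTrans.isIso_iff_isIso_app]
  intro k
  rw [isIso_iff_bijective]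
  exact h k

lemma ia_of_sq {K L K' L' : SSet.{0}} {f : K ⟶ L} (hf : SSet.innerAnodyneExtensions f)
    {f' : K' ⟶ L'} (a : K ⟶ K') (b : L ⟶ L') (w : a ≫ f' = f ≫ b)
    (ha : ∀ k, Function.Bijective (a.app k)) (hb : ∀ k, Function.Bijective (b.app k)) :
    SSet.innerAnodyneExtensions f' := by
  have := isIso_of_bij' a ha
  have := isIso_of_bij' b hb
  exact (SSet.innerAnodyneExtensions.arrow_mk_iso_iff
    (Arrow.isoMk (f := Arrow.mk f) (g := Arrow.mk f') (asIso a) (asIso b) w)).1 hf

/-- Inner anodyne inclusions of subcomplexes. -/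
def IA {Y : SSet.{0}} (K K' : Y.Subcomplex) : Prop :=
  ∃ h : K ≤ K', SSet.innerAnodyneExtensions (SSet.Subcomplex.homOfLE h)

lemma IA.push {Y : SSet.{0}} {K K' : Y.Subcomplex} (h : IA (K ⊓ K') K') : IA K (K ⊔ K') := by
  obtain ⟨h1, h2⟩ := h
  refine ⟨le_sup_left, ?_⟩
  have sq : SSet.Subcomplex.BicartSq (K ⊓ K') K' K (K ⊔ K') :=
    { sup_eq := sup_comm _ _
      inf_eq := inf_comm _ _ }
  exact MorphismProperty.of_isPushout sq.isPushout.flip h2

/-- The union of the words in `U` and the words in `U'` with one common letter. -/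
theorem EN_IA {T : Type} (U U' : Set T) (v : T) (h : U ∩ U' = {v}) :
    IA (ENsub U ⊔ ENsub U') (ENsub (U ∪ U')) := by
  have hv : v ∈ U ∩ U' := by rw [h]; rfl
  have hle : ENsub U ⊔ ENsub U' ≤ ENsub (U ∪ U') := by
    intro k w hw
    rcases hw with hw | hw
    · exact fun i => Or.inl (hw i)
    · exact fun i => Or.inr (hw i)
  refine ⟨hle, ?_⟩
  let T' : Type := { t : T // t ∈ U ∪ U' }
  let W : Set T' := { t | t.1 ∈ U }
  let W' : Set T' := { t | t.1 ∈ U' }
  have h1 : W ∩ W' = {⟨v, Or.inl hv.1⟩} := by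
    ext t
    constructor
    · rintro ⟨ht, ht'⟩
      have : t.1 ∈ U ∩ U' := ⟨ht, ht'⟩
      rw [h] at this
      exact Subtype.ext this
    · rintro rfl
      exact hv
  have h2 : W ∪ W' = Set.univ := by
    ext t
    exact ⟨fun _ => trivial, fun _ => t.2⟩
  have key := Pool.Agent.Helper64.FL2.EN_inner W W' _ h1 h2
  let b : EN T' ⟶ (ENsub (U ∪ U') : SSet.{0}) :=
    { app := fun k => ↾ fun w => ⟨fun i => (w i).1, fun i => (w i).2⟩
      naturality := fun _ _ _ => rfl }
  let a : ((ENsub W ⊔ ENsub W' : (EN T').Subcomplex) : SSet.{0}) ⟶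
      ((ENsub U ⊔ ENsub U' : (EN T).Subcomplex) : SSet.{0}) :=
    { app := fun k => ↾ fun w => ⟨fun i => (w.1 i).1, by
        rcases w.2 with h | h
        · exact Or.inl fun i => h i
        · exact Or.inr fun i => h i⟩
      naturality := fun _ _ _ => rfl }
  refine ia_of_sq key a b rfl ?_ ?_
  · intro k
    constructor
    · intro w w' e
      refine Subtype.ext (funext fun i => Subtype.ext ?_)
      exact congrFun (congrArg Subtype.val e) i
    · rintro ⟨w, hw⟩
      refine ⟨⟨fun i => ⟨w i, hle k hw i⟩, ?_⟩, rfl⟩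
      rcases hw with h | h
      · exact Or.inl fun i => h i
      · exact Or.inr fun i => h i
  · intro k
    constructor
    · intro w w' e
      refine funext fun i => Subtype.ext ?_
      exact congrFun (congrArg Subtype.val e) i
    · rintro ⟨w, hw⟩
      exact ⟨fun i => ⟨w i, hw i⟩, rfl⟩

/-- The subcomplex of `E[Bool × T]` which corresponds to the union of `{0, 1} × E[T]` and
`E[Bool] × {v}`. -/
def isoK {T : Type} (v : T) : (EN (Bool × T)).Subcomplex :=
  (ENsub { z | z.1 = false } ⊔ ENsub { z | z.2 = v }) ⊔ ENsub { z | z.1 = true }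

theorem isoK_inner {T : Type} (v : T) : SSet.innerAnodyneExtensions (isoK v).ι := by
  let U1 : Set (Bool × T) := { z | z.1 = false }
  let U2 : Set (Bool × T) := { z | z.2 = v }
  let U3 : Set (Bool × T) := { z | z.1 = true }
  have h12 : U1 ∩ U2 = {(false, v)} := by
    ext ⟨b, t⟩
    constructor
    · rintro ⟨h, h'⟩
      exact Prod.ext h h'
    · intro h
      rw [Set.mem_singleton_iff] at h
      rw [h]
      exact ⟨rfl, rfl⟩
  have h123 : (U1 ∪ U2) ∩ U3 = {(true, v)} := by
    ext ⟨b, t⟩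
    constructor
    · rintro ⟨h | h, h'⟩
      · exact absurd (h.symm.trans h') (by decide)
      · exact Prod.ext h' h
    · intro h
      rw [Set.mem_singleton_iff] at h
      rw [h]
      exact ⟨Or.inr rfl, rfl⟩
  have hun : (U1 ∪ U2) ∪ U3 = Set.univ := by
    ext ⟨b, t⟩
    refine ⟨fun _ => trivial, fun _ => ?_⟩
    cases b
    · exact Or.inl (Or.inl rfl)
    · exact Or.inr rfl
  have k1 : IA (ENsub U1 ⊔ ENsub U2) (ENsub (U1 ∪ U2)) := EN_IA U1 U2 _ h12
  have k2 : SSet.innerAnodyneExtensions (ENsub (U1 ∪ U2) ⊔ ENsub U3).ι :=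
    Pool.Agent.Helper64.FL2.EN_inner (U1 ∪ U2) U3 _ h123 hun
  have e1 : isoK v ⊓ ENsub (U1 ∪ U2) = ENsub U1 ⊔ ENsub U2 := by
    apply le_antisymm
    · rintro k w ⟨hw, hw'⟩
      rcases hw with hw | hw
      · exact hw
      · refine Or.inr fun i => ?_
        have : w i ∈ (U1 ∪ U2) ∩ U3 := ⟨hw' i, hw i⟩
        rw [h123] at this
        exact congrArg Prod.snd this
    · intro k w hw
      refine ⟨Or.inl hw, ?_⟩
      rcases hw with hw | hw
      · exact fun i => Or.inl (hw i)
      · exact fun i => Or.inr (hw i)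
  have e2 : isoK v ⊔ ENsub (U1 ∪ U2) = ENsub (U1 ∪ U2) ⊔ ENsub U3 := by
    apply le_antisymm
    · rintro k w (hw | hw)
      · rcases hw with hw | hw
        · exact Or.inl (k1.1 k hw)
        · exact Or.inr hw
      · exact Or.inl hw
    · rintro k w (hw | hw)
      · exact Or.inr hw
      · exact Or.inl (Or.inr hw)
  have k3 : IA (isoK v) (ENsub (U1 ∪ U2) ⊔ ENsub U3) := by
    rw [← e2]
    apply IA.push
    rw [e1]
    exact k1
  obtain ⟨k4, k5⟩ := k3
  have : (isoK v).ι = SSet.Subcomplex.homOfLE k4 ≫ (ENsub (U1 ∪ U2) ⊔ ENsub U3).ι := rfl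
  rw [this]
  exact SSet.innerAnodyneExtensions.comp_mem _ _ k5 k2

end Pool.Agent.Helper44.FL2
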