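import Pool.Agent.Helper58.FL2.Flag2

/-!
# Sub-presheaves of `P × E[m]` for pullbacks `P` of `V[r](B)`
-/

open CategoryTheory MonoidalCategory Opposite

set_option autoImplicit false

namespace Pool.Agent.Helper44.FL2

open FL

section

variable {A : Type} [SmallCategory A]

lemma isIso_of_bij {P Q : SP A} (f : P ⟶ Q)
    (h : ∀ a k, Function.Bijective ((f.app a).app k)) : IsIso f := by
  rw [NatTrans.isIso_iff_isIso_app]
  intro a
  rw [NatTrans.isIso_iff_isIso_app]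
  intro k
  rw [isIso_iff_bijective]
  exact h a k

end

variable {C : Type} [SmallCategory C]

/-- The transfer principle. -/
def Transfer (X : SP (Wr C)) : Prop :=
  ∀ {r : ℕ} (B : Fin r → SP C) {N N' : SSet.{0}} (i : N ⟶ N')
    (_ : SSet.innerAnodyneExtensions i)
    (s : N' ⟶ SSet.stdSimplex.obj (SimplexCategory.mk r)), Loc X (Ph.map B i s)

/-- Invariance of local maps under isomorphisms of arrows. -/
def ArrowIso (X : SP (Wr C)) : Prop :=
  ∀ {P Q P' Q' : SP (Wr C)} {f : P ⟶ Q} {f' : P' ⟶ Q'} (e : P ≅ P')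
    (e' : Q ≅ Q') (_ : f ≫ e'.hom = e.hom ≫ f') (_ : Loc X f), Loc X f'

/-- The comparison map. -/
def cmp {r : ℕ} {B : Fin r → SP C} {N : SSet.{0}}
    {s : N ⟶ SSet.stdSimplex.obj (SimplexCategory.mk r)} {P : SP (Wr C)} (ρ : Ph B s ⟶ P)
    (m : SimplexCategory) {M : SSet.{0}} (p : M ⟶ N) (q : M ⟶ EN (Fin (m.len + 1))) :
    Ph B (p ≫ s) ⟶ E0o P m where
  app θ :=
    { app := fun k => ↾ fun (u : PhS B (p ≫ s) θ.unop k) =>
        ((ρ.app θ).app k (((Ph.map B p s).app θ).app k u), q.app _ u.x)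
      naturality := fun k l α => by
        refine ConcreteCategory.hom_ext _ _ fun (u : PhS B (p ≫ s) θ.unop k) => ?_
        exact Prod.ext (hom_natk (Ph.map B p s ≫ ρ) α u) rfl }
  naturality θ θ' φ := by
    refine NatTrans.ext (funext fun k => ?_)
    refine ConcreteCategory.hom_ext _ _ fun (u : PhS B (p ≫ s) θ.unop k) => ?_
    refine Prod.ext (hom_nat (Ph.map B p s ≫ ρ) φ u) ?_
    exact sset_nat q _ u.x

lemma cmp_inj {r : ℕ} {B : Fin r → SP C} {N : SSet.{0}}
    {s : N ⟶ SSet.stdSimplex.obj (SimplexCategory.mk r)} {P : SP (Wr C)} (ρ : Ph B s ⟶ P)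
    (hρ : ∀ θ k, Function.Injective ((ρ.app θ).app k))
    (m : SimplexCategory) {M : SSet.{0}} (p : M ⟶ N) (q : M ⟶ EN (Fin (m.len + 1)))
    (hpq : ∀ (l : SimplexCategoryᵒᵖ) (y y' : M.obj l), p.app l y = p.app l y' →
      q.app l y = q.app l y' → y = y') (θ : (Wr C)ᵒᵖ) (k : SimplexCategoryᵒᵖ) :
    Function.Injective (((cmp ρ m p q).app θ).app k) := by
  intro (u : PhS B (p ≫ s) θ.unop k) (v : PhS B (p ≫ s) θ.unop k) h
  have h1 := hρ θ k (congrArg Prod.fst h)
  have h2 : q.app _ u.x = q.app _ v.x := congrArg Prod.snd h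
  have h3 : p.app _ u.x = p.app _ v.x := congrArg PhS.x h1
  have h4 := hpq _ _ _ h3 h2
  obtain ⟨x, g⟩ := u
  obtain ⟨x', g'⟩ := v
  simp only at h4
  subst h4
  refine congrArg (PhS.mk x) ?_
  have h5 : (PhS.mk (p.app _ x) (fun i j h => g i j h) : PhS B s θ.unop k) =
    PhS.mk (p.app _ x) (fun i j h => g' i j h) := h1
  injection h5

theorem locT_of_inner {X : SP (Wr C)} (hT : Transfer X) (hA : ArrowIso X)
    {r : ℕ} {B : Fin r → SP C} {N : SSet.{0}}
    {s : N ⟶ SSet.stdSimplex.obj (SimplexCategory.mk r)} {P : SP (Wr C)} (ρ : Ph B s ⟶ P)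
    (hρ : ∀ θ k, Function.Bijective ((ρ.app θ).app k))
    (m : SimplexCategory) {M M' : SSet.{0}} (i : M ⟶ M') (hi : SSet.innerAnodyneExtensions i)
    (p : M' ⟶ N) (q : M' ⟶ EN (Fin (m.len + 1)))
    (hinj : ∀ (l : SimplexCategoryᵒᵖ) (y y' : M.obj l), i.app l y = i.app l y' → y = y')
    (hpq : ∀ (l : SimplexCategoryᵒᵖ) (y y' : M'.obj l), p.app l y = p.app l y' →
      q.app l y = q.app l y' → y = y')
    (S T : Sb (E0o P m))
    (hS : ∀ (θ : (Wr C)ᵒᵖ) (k : SimplexCategoryᵒᵖ) (u : PhS B s θ.unop k)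
      (w : Fin (θ.unop.len + 1) → Fin (m.len + 1)),
      (((ρ.app θ).app k u, w) : ((E0o P m).obj θ).obj k) ∈ S.mem θ k ↔
        ∃ y, p.app _ (i.app _ y) = u.x ∧ q.app _ (i.app _ y) = w)
    (hT' : ∀ (θ : (Wr C)ᵒᵖ) (k : SimplexCategoryᵒᵖ) (u : PhS B s θ.unop k)
      (w : Fin (θ.unop.len + 1) → Fin (m.len + 1)),
      (((ρ.app θ).app k u, w) : ((E0o P m).obj θ).obj k) ∈ T.mem θ k ↔
        ∃ y, p.app _ y = u.x ∧ q.app _ y = w) : LocT X S T := by
  have hle : S ≤ T := by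
    intro θ k z hz
    obtain ⟨u, hu⟩ := (hρ θ k).2 z.1
    have e : z = (((ρ.app θ).app k u, z.2) : ((E0o P m).obj θ).obj k) := Prod.ext hu.symm rfl
    rw [e] at hz ⊢
    obtain ⟨y, h1, h2⟩ := (hS θ k u z.2).1 hz
    exact (hT' θ k u z.2).2 ⟨_, h1, h2⟩
  refine ⟨hle, ?_⟩
  -- the isomorphism on the targets
  have memT : ∀ (θ : (Wr C)ᵒᵖ) (k : SimplexCategoryᵒᵖ) (u : PhS B (p ≫ s) θ.unop k),
      ((cmp ρ m p q).app θ).app k u ∈ T.mem θ k := by
    intro θ k u
    exact (hT' θ k (((Ph.map B p s).app θ).app k u) _).2 ⟨u.x, rfl, rfl⟩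
  have memS : ∀ (θ : (Wr C)ᵒᵖ) (k : SimplexCategoryᵒᵖ) (u : PhS B (i ≫ p ≫ s) θ.unop k),
      ((cmp ρ m p q).app θ).app k (((Ph.map B i (p ≫ s)).app θ).app k u) ∈ S.mem θ k := by
    intro θ k u
    exact (hS θ k (((Ph.map B p s).app θ).app k (((Ph.map B i (p ≫ s)).app θ).app k u)) _).2
      ⟨u.x, rfl, rfl⟩
  let g' : Ph B (p ≫ s) ⟶ T.toSP :=
    { app := fun θ =>
        { app := fun k => ↾ fun u => ⟨((cmp ρ m p q).app θ).app k u, memT θ k u⟩
          naturality := fun k l α => by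
            refine ConcreteCategory.hom_ext _ _ fun u => ?_
            exact Subtype.ext (hom_natk (cmp ρ m p q) α u) }
      naturality := fun θ θ' φ => by
        refine NatTrans.ext (funext fun k => ?_)
        refine ConcreteCategory.hom_ext _ _ fun u => ?_
        exact Subtype.ext (hom_nat (cmp ρ m p q) φ u) }
  let g : Ph B (i ≫ p ≫ s) ⟶ S.toSP :=
    { app := fun θ =>
        { app := fun k => ↾ fun u =>
            ⟨((cmp ρ m p q).app θ).app k (((Ph.map B i (p ≫ s)).app θ).app k u), memS θ k u⟩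
          naturality := fun k l α => by
            refine ConcreteCategory.hom_ext _ _ fun u => ?_
            exact Subtype.ext (hom_natk (Ph.map B i (p ≫ s) ≫ cmp ρ m p q) α u) }
      naturality := fun θ θ' φ => by
        refine NatTrans.ext (funext fun k => ?_)
        refine ConcreteCategory.hom_ext _ _ fun u => ?_
        exact Subtype.ext (hom_nat (Ph.map B i (p ≫ s) ≫ cmp ρ m p q) φ u) }
  have hg' : IsIso g' := by
    refine isIso_of_bij g' fun θ k => ⟨?_, ?_⟩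
    · intro u v h
      exact cmp_inj ρ (fun θ k => (hρ θ k).1) m p q hpq θ k (congrArg Subtype.val h)
    · rintro ⟨z, hz⟩
      obtain ⟨u, hu⟩ := (hρ θ k).2 z.1
      have e : z = (((ρ.app θ).app k u, z.2) : ((E0o P m).obj θ).obj k) := Prod.ext hu.symm rfl
      have hz' := hz
      rw [e] at hz'
      obtain ⟨y, h1, h2⟩ := (hT' θ k u z.2).1 hz'
      obtain ⟨x, gg⟩ := u
      simp only at h1
      subst h1
      refine ⟨(⟨y, fun a b h => gg a b h⟩ : PhS B (p ≫ s) θ.unop k), Subtype.ext ?_⟩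
      exact Prod.ext hu h2
  have hg : IsIso g := by
    refine isIso_of_bij g fun θ k => ⟨?_, ?_⟩
    · intro (u : PhS B (i ≫ p ≫ s) θ.unop k) (v : PhS B (i ≫ p ≫ s) θ.unop k) h
      have h1 := cmp_inj ρ (fun θ k => (hρ θ k).1) m p q hpq θ k (congrArg Subtype.val h)
      have h3 : i.app _ u.x = i.app _ v.x := congrArg PhS.x h1
      have h4 := hinj _ _ _ h3
      obtain ⟨x, g⟩ := u
      obtain ⟨x', g'⟩ := v
      simp only at h4
      subst h4
      refine congrArg (PhS.mk x) ?_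
      have h5 : (PhS.mk (i.app _ x) (fun i j h => g i j h) : PhS B (p ≫ s) θ.unop k) =
        PhS.mk (i.app _ x) (fun i j h => g' i j h) := h1
      injection h5
    · rintro ⟨z, hz⟩
      obtain ⟨u, hu⟩ := (hρ θ k).2 z.1
      have e : z = (((ρ.app θ).app k u, z.2) : ((E0o P m).obj θ).obj k) := Prod.ext hu.symm rfl
      have hz' := hz
      rw [e] at hz'
      obtain ⟨y, h1, h2⟩ := (hS θ k u z.2).1 hz'
      obtain ⟨x, gg⟩ := u
      simp only at h1
      subst h1
      refine ⟨(⟨y, fun a b h => gg a b h⟩ : PhS B (i ≫ p ≫ s) θ.unop k), Subtype.ext ?_⟩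
      exact Prod.ext hu h2
  exact hA (asIso g) (asIso g') rfl (hT B i hi (p ≫ s))

end Pool.Agent.Helper44.FL2
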