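import Pool.Agent.Helper44.FL2.Key
import Pool.Agent.Helper44.FL2.Anod

/-!
# Presentations of presheaves as pullbacks of `V[r](B)`
-/

open CategoryTheory MonoidalCategory Opposite

set_option autoImplicit false

namespace Pool.Agent.Helper44.FL2

open FL

variable {C : Type} [SmallCategory C]

/-- The presentation of a representable presheaf. -/
def rhoRep (θ : Wr C) : Ph (fun i => rep (θ.obj i))
    (𝟙 (SSet.stdSimplex.obj (SimplexCategory.mk θ.len) : SSet.{0})) ⟶ rep θ where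
  app η :=
    { app := fun k => ↾ fun (u : PhS (fun i => rep (θ.obj i)) (𝟙 _) η.unop k) =>
        (({ f := sh (𝟙 _) u.x, g := fun i j h => u.g i j h } : Wr.Hom η.unop θ) : η.unop ⟶ θ)
      naturality := fun k l α => rfl }
  naturality η η' φ := by
    refine NatTrans.ext (funext fun k => ?_)
    refine ConcreteCategory.hom_ext _ _ fun (u : PhS (fun i => rep (θ.obj i)) (𝟙 _) η.unop k) => ?_
    refine Wr.hom_ext' ?_ fun i l h h' => ?_
    · exact sh_map (𝟙 _) (Wr.Hom.f φ.unop) u.x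
    · obtain ⟨j, hj, hj'⟩ := Jump.split (f := Wr.Hom.f φ.unop) (g := sh (𝟙 _) u.x) h'
      refine (PhS.mapθ_g φ.unop u hj hj' h).trans ?_
      exact (Wr.comp_g (X := η'.unop) (Y := η.unop) (Z := θ) φ.unop
          ({ f := sh (𝟙 _) u.x, g := fun i j h => u.g i j h } : Wr.Hom η.unop θ) hj hj').symm

lemma sh_id_inj {r m : ℕ}
    {x y : (SSet.stdSimplex.obj (SimplexCategory.mk r) : SSet.{0}).obj
      (op (SimplexCategory.mk m))}
    (h : sh (𝟙 _) x = sh (𝟙 _) y) : x = y := by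
  refine SSet.stdSimplex.objEquiv.injective ?_
  exact SimplexCategory.Hom.ext _ _ h

lemma rhoRep_bij (θ : Wr C) (η : (Wr C)ᵒᵖ) (k : SimplexCategoryᵒᵖ) :
    Function.Bijective (((rhoRep θ).app η).app k) := by
  constructor
  · intro (u : PhS (fun i => rep (θ.obj i)) (𝟙 _) η.unop k)
      (v : PhS (fun i => rep (θ.obj i)) (𝟙 _) η.unop k) h
    have h1 : sh (𝟙 _) u.x = sh (𝟙 _) v.x := congrArg Wr.Hom.f h
    have h2 := sh_id_inj h1
    obtain ⟨x, g⟩ := u
    obtain ⟨x', g'⟩ := v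
    simp only at h2
    subst h2
    refine congrArg (PhS.mk x) ?_
    have h5 : (({ f := sh (𝟙 _) x, g := fun i j h => g i j h } : Wr.Hom η.unop θ)) =
      ({ f := sh (𝟙 _) x, g := fun i j h => g' i j h } : Wr.Hom η.unop θ) := h
    injection h5
  · intro (φ : η.unop ⟶ θ)
    refine ⟨(⟨SSet.stdSimplex.objMk (Wr.Hom.f φ), fun i j h => Wr.Hom.g φ i j h⟩ :
      PhS (fun i => rep (θ.obj i)) (𝟙 _) η.unop k), ?_⟩
    rfl

/-- The presentation of a sub-presheaf. -/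
def rhoSub {r : ℕ} {B : Fin r → SP C} {N : SSet.{0}}
    {s : N ⟶ SSet.stdSimplex.obj (SimplexCategory.mk r)} {P : SP (Wr C)} (ρ : Ph B s ⟶ P)
    (K : N.Subcomplex) (S : Sb P)
    (h : ∀ (θ : (Wr C)ᵒᵖ) (k : SimplexCategoryᵒᵖ) (u : PhS B s θ.unop k),
      (ρ.app θ).app k u ∈ S.mem θ k ↔ u.x ∈ K.obj _) :
    Ph B (K.ι ≫ s) ⟶ S.toSP where
  app θ :=
    { app := fun k => ↾ fun (u : PhS B (K.ι ≫ s) θ.unop k) =>
        ⟨(ρ.app θ).app k (((Ph.map B K.ι s).app θ).app k u), (h θ k _).2 u.x.2⟩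
      naturality := fun k l α => by
        refine ConcreteCategory.hom_ext _ _ fun (u : PhS B (K.ι ≫ s) θ.unop k) => ?_
        exact Subtype.ext (hom_natk (Ph.map B K.ι s ≫ ρ) α u) }
  naturality θ θ' φ := by
    refine NatTrans.ext (funext fun k => ?_)
    refine ConcreteCategory.hom_ext _ _ fun (u : PhS B (K.ι ≫ s) θ.unop k) => ?_
    exact Subtype.ext (hom_nat (Ph.map B K.ι s ≫ ρ) φ u)

lemma rhoSub_bij {r : ℕ} {B : Fin r → SP C} {N : SSet.{0}}
    {s : N ⟶ SSet.stdSimplex.obj (SimplexCategory.mk r)} {P : SP (Wr C)} (ρ : Ph B s ⟶ P)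
    (hρ : ∀ θ k, Function.Bijective ((ρ.app θ).app k))
    (K : N.Subcomplex) (S : Sb P)
    (h : ∀ (θ : (Wr C)ᵒᵖ) (k : SimplexCategoryᵒᵖ) (u : PhS B s θ.unop k),
      (ρ.app θ).app k u ∈ S.mem θ k ↔ u.x ∈ K.obj _) (θ : (Wr C)ᵒᵖ) (k : SimplexCategoryᵒᵖ) :
    Function.Bijective (((rhoSub ρ K S h).app θ).app k) := by
  constructor
  · intro (u : PhS B (K.ι ≫ s) θ.unop k) (v : PhS B (K.ι ≫ s) θ.unop k) e
    have h1 := (hρ θ k).1 (congrArg Subtype.val e)
    have h3 : u.x.1 = v.x.1 := congrArg PhS.x h1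
    have h4 : u.x = v.x := Subtype.ext h3
    obtain ⟨x, g⟩ := u
    obtain ⟨x', g'⟩ := v
    simp only at h4
    subst h4
    refine congrArg (PhS.mk x) ?_
    have h5 : (PhS.mk x.1 (fun i j h => g i j h) : PhS B s θ.unop k) =
      PhS.mk x.1 (fun i j h => g' i j h) := h1
    injection h5
  · rintro ⟨z, hz⟩
    obtain ⟨u, rfl⟩ := (hρ θ k).2 z
    obtain ⟨x, g⟩ := u
    exact ⟨(⟨⟨x, (h θ k _).1 hz⟩, fun i j h => g i j h⟩ : PhS B (K.ι ≫ s) θ.unop k), rfl⟩

/-- The map to `Δ[0]`. -/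
def toΔ (K : SSet.{0}) : K ⟶ (SSet.stdSimplex.obj (SimplexCategory.mk 0) : SSet.{0}) where
  app k := ↾ fun _ => SSet.stdSimplex.objMk ⟨fun _ => (0 : Fin 1), fun _ _ _ => le_refl _⟩
  naturality _ _ _ := rfl

/-- The presentation of the nerve of the free-standing isomorphism. -/
def rhoIso (C : Type) [SmallCategory C] : Ph (fun i : Fin 0 => (i.elim0 : SP C)) (toΔ (EN Bool)) ⟶
    disc (isoPsh C) where
  app η :=
    { app := fun k => ↾ fun (u : PhS (fun i : Fin 0 => (i.elim0 : SP C)) (toΔ (EN Bool))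
        η.unop k) => u.x
      naturality := fun k l α => rfl }
  naturality η η' φ := rfl

lemma rhoIso_bij (η : (Wr C)ᵒᵖ) (k : SimplexCategoryᵒᵖ) :
    Function.Bijective (((rhoIso C).app η).app k) := by
  constructor
  · intro (u : PhS (fun i : Fin 0 => (i.elim0 : SP C)) (toΔ (EN Bool)) η.unop k)
      (v : PhS (fun i : Fin 0 => (i.elim0 : SP C)) (toΔ (EN Bool)) η.unop k) h
    exact PhS.ext' h fun i j _ _ => j.elim0
  · intro w
    exact ⟨(⟨w, fun i j _ => j.elim0⟩ :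
      PhS (fun i : Fin 0 => (i.elim0 : SP C)) (toΔ (EN Bool)) η.unop k), rfl⟩

end Pool.Agent.Helper44.FL2
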